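import Mathlib
import Pool.Agent.K4H74.ST.Exc

/-!
# Totally odd characters of the form: sign character times character of a totally real extension
-/

set_option autoImplicit false
set_option linter.unusedSectionVars false

namespace Pool.Agent.K4H74.SO

open NumberField NumberField.ComplexEmbedding Pool.Agent.R389 Pool.Agent.K4H74.ST

section grp

variable {G Q : Type} [Group G] [Finite G] [Group Q] [Finite Q]

/-- the twist of an inflated virtual character is a combination of characters induced from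
subgroups containing the kernel -/
theorem twist_span {π : G →* Q} (hπ : Function.Surjective π) (s : G →* ℂˣ) {θ : Q → ℂ}
    (hθ : IsChar θ) :
    (fun g => ((s g : ℂˣ) : ℂ) * θ (π g)) ∈ AddSubgroup.closure {f : G → ℂ |
      ∃ (U : Subgroup G) (ψ : U →* ℂˣ), π.ker ≤ U ∧ (∀ u : U, π u = 1 → ψ u = s u) ∧
        f = ind U (fun h => ((ψ h : ℂˣ) : ℂ))} := by
  have h1 := virt_mem_mon hθ.virt
  let T : (Q → ℂ) →+ (G → ℂ) :=
    { toFun := fun f g => ((s g : ℂˣ) : ℂ) * f (π g)
      map_zero' := by funext g; simp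
      map_add' := by intro a b; funext g; simp [mul_add] }
  have h2 : MonG Q ≤ (AddSubgroup.closure {f : G → ℂ |
      ∃ (U : Subgroup G) (ψ : U →* ℂˣ), π.ker ≤ U ∧ (∀ u : U, π u = 1 → ψ u = s u) ∧
        f = ind U (fun h => ((ψ h : ℂˣ) : ℂ))}).comap T := by
    rw [MonG, AddSubgroup.closure_le]
    rintro f ⟨U, ψ, -, rfl⟩
    refine AddSubgroup.subset_closure ?_
    let π' : U.comap π →* U := (π.comp (U.comap π).subtype).codRestrict U (fun h => h.2)
    refine ⟨U.comap π, (s.comp (U.comap π).subtype) * ψ.comp π', ?_, ?_, ?_⟩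
    · intro g hg
      rw [Subgroup.mem_comap, (MonoidHom.mem_ker).mp hg]
      exact U.one_mem
    · intro u hu
      have h3 : π' u = 1 := Subtype.ext hu
      rw [MonoidHom.mul_apply, MonoidHom.comp_apply ψ, h3, map_one, mul_one]
      rfl
    · funext g
      change ((s g : ℂˣ) : ℂ) * ind U (fun h => ((ψ h : ℂˣ) : ℂ)) (π g) = _
      rw [congrFun (ind_comap hπ U (fun h => ((ψ h : ℂˣ) : ℂ))) g, mul_comm,
        ← ind_mul (U.comap π) _ (F := fun g => ((s g : ℂˣ) : ℂ)) (lin_conj s) g]
      congr 1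
      funext h
      simp only [MonoidHom.mul_apply, Units.val_mul, MonoidHom.comp_apply]
      rw [mul_comm]
      rfl
  exact h2 h1

end grp

section fld

variable {M : Type} [CommGroup M] {A : ArtinInvariant M}

/-- **Totally odd characters.** `s` is a linear character of `Gal(L/K)`, `K` totally real, with
value `-1` on the complex conjugations, and `θ` is a character of `Gal(N₁/K)`, `N₁ ⊆ L` totally
real. -/
theorem val_odd (hO : TrivOdd A) (K L N₁ : Type) [Field K] [NumberField K] [Field L]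
    [NumberField L] [Algebra K L] [IsGalois K L] [Field N₁] [NumberField N₁] [Algebra K N₁]
    [IsGalois K N₁] [Algebra N₁ L] [IsScalarTower K N₁ L] (hK : IsTotallyReal K)
    (hN : IsTotallyReal N₁) (s : (L ≃ₐ[K] L) →* ℂˣ) (hs : ∀ c ∈ CC K L, s c = -1)
    {θ : (N₁ ≃ₐ[K] N₁) → ℂ} (hθ : IsChar θ) :
    (fun g => ((s g : ℂˣ) : ℂ) * θ (AlgEquiv.restrictNormalHom N₁ g))
      ∈ TT A (K := K) (L := L) ⊥ := by
  have hfin : FiniteDimensional K L := Module.Finite.of_restrictScalars_finite ℚ K L
  have hfin1 : FiniteDimensional K N₁ := Module.Finite.of_restrictScalars_finite ℚ K N₁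
  have hπ : Function.Surjective (AlgEquiv.restrictNormalHom (F := K) (K₁ := L) N₁) :=
    AlgEquiv.restrictNormalHom_surjective L
  have hcc : ∀ c ∈ CC K L, AlgEquiv.restrictNormalHom N₁ c = 1 := by
    rintro c ⟨φ, hφ⟩
    have h1 := isConj_res (L := N₁) hφ
    have h2 : IsReal (φ.comp (algebraMap N₁ L)) := by
      have h3 := hN.isReal (InfinitePlace.mk (φ.comp (algebraMap N₁ L)))
      rw [InfinitePlace.isReal_mk_iff] at h3
      exact h3
    ext x
    apply (φ.comp (algebraMap N₁ L)).injective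
    rw [h1.eq]
    exact RingHom.congr_fun h2 x
  refine (AddSubgroup.closure_le _).mpr ?_ (twist_span hπ s hθ)
  rintro f ⟨U, ψ, hU, hψ, rfl⟩
  rw [SetLike.mem_coe, mem_TT_char A (IsChar.ind_lin U ψ), Subgroup.mem_bot]
  obtain ⟨e, he⟩ : ∃ ψ' : (L ≃ₐ[IntermediateField.fixedField U] L) →* ℂˣ,
      (ind U (fun h => ((ψ h : ℂˣ) : ℂ)) = indChar K (IntermediateField.fixedField U) L (lc ψ')) ∧
      ∀ g : L ≃ₐ[IntermediateField.fixedField U] L, ∃ u : U, (u : L ≃ₐ[K] L) = g.restrictScalars K ∧
        ψ' g = ψ u := by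
    let e : U ≃* (L ≃ₐ[IntermediateField.fixedField U] L) :=
      IntermediateField.subgroupEquivAlgEquiv U
    refine ⟨ψ.comp e.symm.toMonoidHom, ind_fixed U _, fun g => ⟨e.symm g, ?_, rfl⟩⟩
    have h1 : g = e (e.symm g) := (e.apply_symm_apply g).symm
    conv_rhs => rw [h1]
    rfl
  rw [he.1, A.val_ind K (IntermediateField.fixedField U) L (lc e) (IsChar.lc e)]
  refine hO (IntermediateField.fixedField U) L (fixed_real hK U fun c hc => hU
    (MonoidHom.mem_ker.mpr (hcc c hc))) e fun φ c hc => ?_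
  obtain ⟨u, hu, h1⟩ := he.2 c
  have h2 : (u : L ≃ₐ[K] L) ∈ CC K L := by
    rw [hu]
    refine ⟨φ, ?_⟩
    ext x
    change star (φ x) = φ (c x)
    exact (hc.eq x).symm
  rw [h1, hψ u (hcc _ h2), hs _ h2]

end fld

end Pool.Agent.K4H74.SO
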